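import Mathlib
import Pool.Agent.H27.LP2

/-! # A 2-transitive lattice-ordered group of bounded automorphisms of a chain without l-primes -/

namespace Pool.Agent.Results.MP_31a5b6_al.NoLPrimes

/-- `L` is a subgroup and sublattice of `Aut(T)` (the lattice operations are pointwise maximum and
minimum) satisfying 2-transitivity and bounded support. -/
structure Admissible (T : Type) [LinearOrder T] (L : Subgroup (T ≃o T)) : Prop where
  sup_mem : ∀ f ∈ L, ∀ g ∈ L, ∃ h ∈ L, ∀ t, h t = max (f t) (g t)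
  inf_mem : ∀ f ∈ L, ∀ g ∈ L, ∃ h ∈ L, ∀ t, h t = min (f t) (g t)
  two_transitive : ∀ r₁ r₂ s₁ s₂ : T, r₁ < r₂ → s₁ < s₂ → ∃ f ∈ L, f r₁ = s₁ ∧ f r₂ = s₂
  bounded : ∀ f ∈ L, ∃ t₁ t₂ : T, ∀ s, (s < t₁ ∨ t₂ < s) → f s = s

/-- `f` is an l-prime of `L`: there are no `f₁, f₂ ∈ L` different from the identity with
`f₁ ∧ f₂ = e` and `f₁ ∨ f₂ = f`. -/
def IsLPrime {T : Type} [LinearOrder T] (L : Subgroup (T ≃o T)) (f : T ≃o T) : Prop :=
  ¬ ∃ f₁ ∈ L, ∃ f₂ ∈ L, f₁ ≠ 1 ∧ f₂ ≠ 1 ∧ (∀ t, min (f₁ t) (f₂ t) = t) ∧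
    (∀ t, max (f₁ t) (f₂ t) = f t)

/-- There are a chain `T` with more than two elements and a subgroup-and-sublattice `L` of
`Aut(T)`, 2-transitive and with bounded supports, such that no `f ∈ L` with `f > e` is an
l-prime. -/
theorem result : ∃ (T : Type) (_ : LinearOrder T) (L : Subgroup (T ≃o T)),
    (∃ x y z : T, x < y ∧ y < z) ∧ Admissible T L ∧
      ∀ f ∈ L, (∀ t, t ≤ f t) → f ≠ 1 → ¬ IsLPrime L f := by
  refine ⟨Pool.Agent.H27.LP.TI, inferInstance, Pool.Agent.H27.LP.LI,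
    Pool.Agent.H27.LP.TI_three, ⟨fun f hf g hg => Pool.Agent.H27.LP.LI_max f g hf hg,
      fun f hf g hg => Pool.Agent.H27.LP.LI_min f g hf hg, Pool.Agent.H27.LP.LI_two,
      Pool.Agent.H27.LP.LI_bdd⟩, ?_⟩
  intro f hf hpos hne h
  exact h (Pool.Agent.H27.LP.LI_split f hf hpos hne)

end Pool.Agent.Results.MP_31a5b6_al.NoLPrimes
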